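import Pool.Agent.H.MP_628479_al.C

namespace Pool.Agent.Results.MP_628479_al.Yes
open Finset

abbrev R := MvPolynomial ℕ (ZMod 2)

noncomputable def e : ℕ → R
  | 0 => 1
  | k + 1 => MvPolynomial.X k

noncomputable def h : ℕ → R
  | 0 => 1
  | k + 1 => -∑ i : Fin (k + 1), e (i + 1) * h (k - i)
decreasing_by omega

noncomputable def om : R →ₐ[ZMod 2] R := MvPolynomial.aeval (fun k => h (k + 1))

noncomputable def S : Subalgebra (ZMod 2) R := AlgHom.equalizer om (AlgHom.id (ZMod 2) R)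

noncomputable def I : Ideal S := Ideal.span {s : S | ∃ x : R, (s : R) = x + om x}

theorem rec_h (k : ℕ) (hk : 1 ≤ k) : ∑ i ∈ range (k + 1), e i * h (k - i) = 0 := by
  obtain ⟨k, rfl⟩ : ∃ j, k = j + 1 := ⟨k - 1, by omega⟩
  rw [sum_range_succ', Nat.sub_zero, h, Finset.sum_range]
  simp [e]

theorem om_e (k : ℕ) : om (e k) = h k := by
  rcases k with _ | k
  · simp [e, h]
  · simp [e, om]

theorem mem_I (s : S) : s ∈ I ↔ ∃ x : R, (s : R) = x + om x := by
  refine ⟨fun hs => ?_, fun hs => Ideal.subset_span hs⟩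
  induction hs using Submodule.span_induction with
  | mem s hs => exact hs
  | zero => exact ⟨0, by simp⟩
  | add a b _ _ ha hb =>
    obtain ⟨x, hx⟩ := ha
    obtain ⟨y, hy⟩ := hb
    exact ⟨x + y, by rw [Subalgebra.coe_add, hx, hy, map_add]; ring⟩
  | smul c a _ ha =>
    obtain ⟨x, hx⟩ := ha
    have hc : om c = c := c.2
    exact ⟨c * x, by rw [smul_eq_mul, Subalgebra.coe_mul, hx, map_mul, hc]; ring⟩

theorem trans (n : ℕ) : Ideal.comap S.val (Ideal.map S.val (I ^ n)) = I ^ n := by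
  refine le_antisymm ?_ Ideal.le_comap_map
  rcases n with _ | n
  · simp
  have he : e = H.MP_628479_al.e := by
    ext1 k; rcases k with _ | k <;> rfl
  obtain ⟨x, δ, hd⟩ := H.MP_628479_al.data om (PowerSeries.mk h) (by
    ext1 k
    rw [← he, PowerSeries.coeff_mul, Finset.Nat.sum_antidiagonal_eq_sum_range_succ_mk,
      PowerSeries.coeff_one]
    simp only [PowerSeries.coeff_mk]
    split_ifs with hk
    · subst hk; simp [e, h]
    · exact rec_h k (by omega)) (fun k => by rw [← he, om_e, PowerSeries.coeff_mk])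
  intro s hs
  rw [Ideal.mem_comap, Ideal.map_pow] at hs
  have h1 : Ideal.map S.val I ≤ Ideal.span (Set.range δ) := by
    rw [Ideal.map_le_iff_le_comap]
    intro a ha
    obtain ⟨y, hy⟩ := (mem_I a).1 ha
    rw [Ideal.mem_comap]
    change (a : R) ∈ _
    rw [hy]; exact hd.dd y
  let P : Submodule (ZMod 2) R :=
    Submodule.map S.val.toLinearMap ((I ^ (n + 1)).restrictScalars (ZMod 2))
  have hdS : ∀ r : R, r + om r ∈ S := fun r => by
    change om (r + om r) = r + om r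
    rw [map_add, hd.inv, add_comm]
  let δ' : ℕ → S := fun j => ⟨δ j, H.MP_628479_al.wδ hd j⟩
  have hδ' : ∀ j, δ' j ∈ I := fun j => (mem_I _).2 ⟨x (2 * j + 1), by
    change δ j = _
    rw [hd.od]
    linear_combination (-x (2 * j + 1)) * H.MP_628479_al.two0⟩
  obtain ⟨a, ha, hae⟩ := H.MP_628479_al.main hd P n (fun β r hβ => by
    refine ⟨(∏ j ∈ β.support, δ' j ^ β j) * ⟨_, hdS r⟩, ?_, ?_⟩
    · change _ ∈ I ^ (n + 1)
      rw [pow_succ]
      refine Ideal.mul_mem_mul (Ideal.pow_le_pow_right hβ ?_) ((mem_I _).2 ⟨r, rfl⟩)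
      rw [Finsupp.degree_apply, ← prod_pow_eq_pow_sum]
      exact Ideal.prod_mem_prod fun j _ => Ideal.pow_mem_pow (hδ' j) _
    · simp [H.MP_628479_al.DD, Finsupp.prod, δ']) (Ideal.pow_right_mono h1 _ hs) s.2
  have : a = s := Subtype.ext hae
  rw [← this]; exact ha

theorem result :
    (h 0 = 1 ∧ ∀ k, 1 ≤ k → ∑ i ∈ range (k + 1), e i * h (k - i) = 0) ∧
    (∀ k, om (e k) = h k) ∧
    (∀ s : S, s ∈ I ↔ ∃ x : R, (s : R) = x + om x) ∧
    ∀ n : ℕ, Ideal.comap S.val (Ideal.map S.val (I ^ n)) = I ^ n :=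
  ⟨⟨by simp [h], rec_h⟩, om_e, mem_I, trans⟩

end Pool.Agent.Results.MP_628479_al.Yes
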